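import Pool.Agent.N356.SP.DefsK

set_option autoImplicit false

/-! GK9: log-convexity of `p_k(1, z)` for `z ≤ 1 / 2`. -/

namespace Pool.Agent.N933.LK

open Finset Pool.Agent.H384R3.SPk Pool.Agent.N356.SP

theorem pK_zero (z : ℝ) : pK 0 (1:ℝ) z = 1 := by
  simp [pK, lam]

theorem pK_one (z : ℝ) : pK 1 (1:ℝ) z = 1 := by
  simp [pK, lam]

/-- bounds for the ratio of consecutive terms -/
theorem ratio_bd (hrec : ∀ {k : ℕ}, 1 ≤ k → ∀ μ t : ℝ, ((k:ℝ) + 1) • pK (k + 1) μ t =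
      (2 * (k:ℝ) + 1) • (μ * pK k μ t) - (k:ℝ) • ((μ ^ 2 - (2:ℝ) • t) * pK (k - 1) μ t))
    {z : ℝ} (hz0 : 0 ≤ z) (hz1 : z ≤ 1 / 2) (k : ℕ) :
    0 < pK k (1:ℝ) z ∧ pK k (1:ℝ) z ≤ pK (k + 1) (1:ℝ) z ∧
      pK (k + 1) (1:ℝ) z ≤ (1 + √(2 * z)) * pK k (1:ℝ) z := by
  have hR0 : 0 ≤ √(2 * z) := Real.sqrt_nonneg _
  have hR2 : √(2 * z) ^ 2 = 2 * z := Real.sq_sqrt (by linarith)
  induction k with
  | zero =>
    rw [pK_zero, zero_add, pK_one]
    refine ⟨one_pos, le_rfl, ?_⟩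
    linarith
  | succ k ih =>
    obtain ⟨h0, h1, h2⟩ := ih
    have h := hrec (k := k + 1) (by omega) 1 z
    simp only [smul_eq_mul, one_mul, one_pow, Nat.add_sub_cancel] at h
    push_cast at h
    set a := pK k (1:ℝ) z
    set b := pK (k + 1) (1:ℝ) z
    set c := pK (k + 1 + 1) (1:ℝ) z
    set w := √(2 * z)
    have hb : 0 < b := by linarith
    have hk : (0 : ℝ) ≤ k := Nat.cast_nonneg k
    have hs : (0 : ℝ) ≤ 1 - 2 * z := by linarith
    refine ⟨hb, ?_, ?_⟩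
    · have e1 : 0 ≤ ((k : ℝ) + 1) * (b - a) := mul_nonneg (by linarith) (by linarith)
      have e2 : 0 ≤ ((k : ℝ) + 1) * (2 * z * a) := by positivity
      have e3 : 0 ≤ ((k : ℝ) + 2) * (c - b) := by nlinarith
      have e4 : (0 : ℝ) < (k : ℝ) + 2 := by linarith
      by_contra hc
      push Not at hc
      nlinarith
    · -- `s a ≥ (2 - R) b` with `R = 1 + w`, `s = R (2 - R)`
      have e0 : 1 - 2 * z = (1 + w) * (1 - w) := by rw [← hR2]; ring
      have hw1 : 0 ≤ 1 - w := by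
        by_contra hc
        push Not at hc
        nlinarith
      have e1 : (1 - w) * b ≤ (1 - 2 * z) * a := by
        rw [e0]
        calc (1 - w) * b ≤ (1 - w) * ((1 + w) * a) := mul_le_mul_of_nonneg_left h2 hw1
          _ = _ := by ring
      have e2 : ((k : ℝ) + 1) * ((1 - w) * b) ≤ ((k : ℝ) + 1) * ((1 - 2 * z) * a) :=
        mul_le_mul_of_nonneg_left e1 (by linarith)
      have e3 : 0 ≤ w * b := by positivity
      have e5 : ((k : ℝ) + 2) * c ≤ ((k : ℝ) + 2) * ((1 + w) * b) := by nlinarith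
      exact le_of_mul_le_mul_left e5 (by linarith)

/-- GK9: the case of the recursion for real numbers -/
theorem pK_ratio (hrec : ∀ {k : ℕ}, 1 ≤ k → ∀ μ t : ℝ, ((k:ℝ) + 1) • pK (k + 1) μ t =
      (2 * (k:ℝ) + 1) • (μ * pK k μ t) - (k:ℝ) • ((μ ^ 2 - (2:ℝ) • t) * pK (k - 1) μ t))
    {z : ℝ} (hz0 : 0 ≤ z) (hz1 : z ≤ 1 / 2) {k : ℕ} :
    0 < pK k (1:ℝ) z ∧ pK (k + 1) (1:ℝ) z ^ 2 ≤ pK k (1:ℝ) z * pK (k + 2) (1:ℝ) z := by
  have hR0 : 0 ≤ √(2 * z) := Real.sqrt_nonneg _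
  have hR2 : √(2 * z) ^ 2 = 2 * z := Real.sq_sqrt (by linarith)
  refine ⟨(ratio_bd hrec hz0 hz1 k).1, ?_⟩
  induction k with
  | zero =>
    have h := hrec (k := 1) le_rfl 1 z
    simp only [smul_eq_mul, one_mul, one_pow, Nat.sub_self, Nat.cast_one] at h
    rw [pK_zero, pK_one] at h
    rw [zero_add, zero_add, pK_zero, pK_one]
    norm_num at h ⊢
    linarith
  | succ k ih =>
    have h := hrec (k := k + 1) (by omega) 1 z
    have h' := hrec (k := k + 2) (by omega) 1 z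
    have hb1 := ratio_bd hrec hz0 hz1 (k + 1)
    simp only [smul_eq_mul, one_mul, one_pow, Nat.add_sub_cancel] at h h'
    rw [show k + 2 - 1 = k + 1 by omega] at h'
    push_cast at h h'
    obtain ⟨hb, hbc, hcR⟩ := hb1
    rw [show k + 1 + 1 = k + 2 by omega] at h hbc hcR ⊢
    rw [show k + 2 + 1 = k + 3 by omega] at h'
    rw [show k + 1 + 2 = k + 3 by omega]
    set a := pK k (1:ℝ) z
    set b := pK (k + 1) (1:ℝ) z
    set c := pK (k + 2) (1:ℝ) z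
    set d := pK (k + 3) (1:ℝ) z
    have hk : (0 : ℝ) ≤ k := Nat.cast_nonneg k
    have hs : (0 : ℝ) ≤ 1 - 2 * z := by linarith
    have hc : 0 < c := by linarith
    -- `(c - b)^2 ≤ 2 z b^2`
    have e1 : (c - b) ^ 2 ≤ 2 * z * b ^ 2 := by
      rw [← hR2, ← mul_pow]
      apply pow_le_pow_left₀ (by linarith)
      linarith
    have e2 : ((k : ℝ) + 2) * c ^ 2 ≤ (2 * (k : ℝ) + 3) * (b * c) - ((k : ℝ) + 1) * (1 - 2 * z) * b ^ 2 := by
      have e3 : ((k : ℝ) + 2) * c ^ 2 = (2 * (k : ℝ) + 3) * (b * c) - ((k : ℝ) + 1) * (1 - 2 * z) * (a * c) := by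
        have e4 : ((k : ℝ) + 2) * c ^ 2 = (((k : ℝ) + 1 + 1) * c) * c := by ring
        rw [e4, h]
        ring
      rw [e3]
      have e5 : ((k : ℝ) + 1) * (1 - 2 * z) * b ^ 2 ≤ ((k : ℝ) + 1) * (1 - 2 * z) * (a * c) :=
        mul_le_mul_of_nonneg_left ih (by positivity)
      linarith
    have e6 : ((k : ℝ) + 3) * (b * d) = (2 * (k : ℝ) + 5) * (b * c) - ((k : ℝ) + 2) * (1 - 2 * z) * b ^ 2 := by
      have e7 : ((k : ℝ) + 3) * (b * d) = b * (((k : ℝ) + 2 + 1) * d) := by ring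
      rw [e7, h']
      ring
    have e8 : ((k : ℝ) + 3) * c ^ 2 ≤ ((k : ℝ) + 3) * (b * d) := by
      rw [e6]
      nlinarith
    exact le_of_mul_le_mul_left e8 (by linarith)

end Pool.Agent.N933.LK
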